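import Pool.Agent.BoltzM.Uq.Basic

/-! Transport along characteristics on the torus, Gronwall's lemma, and the passage from an
integral bound to a pointwise bound. -/

set_option autoImplicit false

open MeasureTheory Set Filter Topology
open scoped ENNReal Pointwise

noncomputable section

namespace Pool.Agent.BoltzM.L1

open Coll C3 Uq

lemma tendsto_sqrt (y : ℝ) :
    Tendsto (fun n : ℕ => √((1 / ((n : ℝ) + 1)) ^ 2 + y ^ 2)) atTop (𝓝 |y|) := by
  have h0 : Tendsto (fun n : ℕ => (1 / ((n : ℝ) + 1)) ^ 2 + y ^ 2) atTop (𝓝 (0 ^ 2 + y ^ 2)) :=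
    (tendsto_one_div_add_atTop_nhds_zero_nat.pow 2).add tendsto_const_nhds
  have := h0.sqrt
  rwa [show (0 : ℝ) ^ 2 + y ^ 2 = y ^ 2 by ring, Real.sqrt_sq_eq_abs] at this

lemma tendsto_quot (y : ℝ) :
    Tendsto (fun n : ℕ => y / √((1 / ((n : ℝ) + 1)) ^ 2 + y ^ 2)) atTop (𝓝 (sg y)) := by
  rcases eq_or_ne y 0 with rfl | hy
  · simp [sg]
  · have h1 : sg y = y / |y| := by
      rw [eq_div_iff (abs_ne_zero.2 hy)]
      unfold sg
      split_ifs with h h'
      · rw [one_mul, abs_of_pos h]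
      · rw [abs_of_neg h']; ring
      · exact absurd (le_antisymm (not_lt.1 h) (not_lt.1 h')) hy
    rw [h1]
    exact tendsto_const_nhds.div (tendsto_sqrt y) (abs_ne_zero.2 hy)

lemma abs_quot_le (δ y : ℝ) (hδ : 0 < δ) : |y / √(δ ^ 2 + y ^ 2)| ≤ 1 := by
  have h : 0 < √(δ ^ 2 + y ^ 2) := Real.sqrt_pos.2 (by positivity)
  rw [abs_div, abs_of_pos h, div_le_one h]
  exact Real.abs_le_sqrt (by nlinarith [sq_nonneg δ])

/-- the chain rule in integral form -/
def Chain (G g : ℝ → ℝ) : Prop :=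
  ∀ (u u' : ℝ → ℝ) (t0 t : ℝ), Continuous u → Continuous u' →
    (∀ s ∈ Icc 0 t0, HasDerivWithinAt u (u' s) (Icc 0 t0) s) → t ∈ Icc 0 t0 →
      G (u t) = G (u 0) + ∫ s in Ioc 0 t, g (u s) * u' s

lemma chain_id : Chain (fun y => y) fun _ => 1 := by
  intro u u' t0 t hu hu' hd ht
  have h1 := intervalIntegral.integral_eq_sub_of_hasDerivAt_of_le ht.1 (f := u) (f' := u')
    hu.continuousOn (fun s hs => (hd s ⟨hs.1.le, hs.2.le.trans ht.2⟩).hasDerivAt
      (Icc_mem_nhds hs.1 (hs.2.trans_le ht.2))) (hu'.intervalIntegrable _ _)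
  rw [intervalIntegral.integral_of_le ht.1] at h1
  simp only [one_mul, h1]
  ring

lemma chain_abs : Chain (fun y => |y|) sg := by
  intro u u' t0 t hu hu' hd ht
  have key : ∀ δ : ℝ, 0 < δ → √(δ ^ 2 + u t ^ 2) - √(δ ^ 2 + u 0 ^ 2)
      = ∫ s in Ioc 0 t, u s / √(δ ^ 2 + u s ^ 2) * u' s := by
    intro δ hδ
    have hp : ∀ s, 0 < δ ^ 2 + u s ^ 2 := fun s => by positivity
    have hc : Continuous fun s => u s / √(δ ^ 2 + u s ^ 2) * u' s :=
      (hu.div (by fun_prop) fun s => (Real.sqrt_pos.2 (hp s)).ne').mul hu'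
    have h1 := intervalIntegral.integral_eq_sub_of_hasDerivAt_of_le ht.1
      (f := fun s => √(δ ^ 2 + u s ^ 2)) (f' := fun s => u s / √(δ ^ 2 + u s ^ 2) * u' s)
      (by fun_prop) (fun s hs => by
        have hs' : s ∈ Icc 0 t0 := ⟨hs.1.le, hs.2.le.trans ht.2⟩
        have h2 := (hd s hs').hasDerivAt (Icc_mem_nhds hs.1 (hs.2.trans_le ht.2))
        have h3 := ((h2.pow 2).const_add (δ ^ 2)).sqrt (hp s).ne'
        refine h3.congr_deriv ?_
        have := (Real.sqrt_pos.2 (hp s)).ne'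
        simp only [Pi.pow_apply]
        field_simp
        norm_num
        ring) (hc.intervalIntegrable _ _)
    rw [intervalIntegral.integral_of_le ht.1] at h1
    rw [h1]
  have l1 := (tendsto_sqrt (u t)).sub (tendsto_sqrt (u 0))
  have l2 : Tendsto (fun n : ℕ => ∫ s in Ioc 0 t,
      u s / √((1 / ((n : ℝ) + 1)) ^ 2 + u s ^ 2) * u' s) atTop
      (𝓝 (∫ s in Ioc 0 t, sg (u s) * u' s)) := by
    refine tendsto_integral_of_dominated_convergence (fun s => |u' s|) (fun n => ?_) ?_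
      (fun n => ae_of_all _ fun s => ?_) (ae_of_all _ fun s => (tendsto_quot _).mul_const _)
    · exact (by fun_prop : Measurable _).aestronglyMeasurable
    · exact (hu'.abs.integrableOn_Icc (a := 0) (b := t)).mono_set Ioc_subset_Icc_self
    · rw [Real.norm_eq_abs, abs_mul]
      exact mul_le_of_le_one_left (abs_nonneg _) (abs_quot_le _ _ (by positivity))
  have := tendsto_nhds_unique l1 (l2.congr fun n => (key _ (by positivity)).symm)
  simp only
  linarith

lemma chain_neg : Chain (fun y => max (-y) 0) fun y => (sg y - 1) / 2 := by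
  intro u u' t0 t hu hu' hd ht
  have h1 := chain_abs u u' t0 t hu hu' hd ht
  have h2 := chain_id u u' t0 t hu hu' hd ht
  have e : ∀ y : ℝ, max (-y) 0 = (|y| - y) / 2 := fun y => by
    rcases le_total 0 y with h | h
    · rw [max_eq_right (by linarith), abs_of_nonneg h]; ring
    · rw [max_eq_left (by linarith), abs_of_nonpos h]; ring
  have i0 : IntegrableOn u' (Ioc 0 t) :=
    (hu'.integrableOn_Icc (a := 0) (b := t)).mono_set Ioc_subset_Icc_self
  have i1 : IntegrableOn (fun s => sg (u s) * u' s) (Ioc 0 t) :=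
    i0.norm.mono' (by fun_prop : Measurable _).aestronglyMeasurable
      (ae_of_all _ fun s => abs_sg_mul_le _ _)
  have h3 : ∫ s in Ioc 0 t, (sg (u s) - 1) / 2 * u' s =
      ((∫ s in Ioc 0 t, sg (u s) * u' s) - ∫ s in Ioc 0 t, u' s) / 2 := by
    rw [← integral_sub i1 i0, ← integral_div]
    exact integral_congr_ae (ae_of_all _ fun s => by simp only; ring)
  simp only [one_mul] at h1 h2
  simp only [e, h3]
  linarith

variable [Dim]

/-- the standard basis -/
def bb : Module.Basis Ix ℝ E := (EuclideanSpace.basisFun Ix ℝ).toBasis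

/-- the unit cube -/
def DD : Set E := ZSpan.fundamentalDomain bb

lemma exists_lat (g : Submodule.span ℤ (Set.range bb)) : ∃ n, (g : E) = Stmt.lat n := by
  obtain ⟨c, hc⟩ := (Submodule.mem_span_range_iff_exists_fun ℤ).1 g.2
  refine ⟨c, ?_⟩
  rw [← hc]
  ext i
  simp [bb, Stmt.lat, Pi.single_apply]

lemma fund : IsAddFundamentalDomain (Submodule.span ℤ (Set.range bb)) DD (volume : Measure E) :=
  ZSpan.isAddFundamentalDomain bb volume

lemma per_vadd {φ : E → ℝ} (hφ : ∀ n x, φ (x + Stmt.lat n) = φ x)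
    (g : Submodule.span ℤ (Set.range bb)) (x : E) : φ (g +ᵥ x) = φ x := by
  obtain ⟨n, hn⟩ := exists_lat g
  rw [Submodule.vadd_def, vadd_eq_add, hn, add_comm, hφ]

instance : VAddInvariantMeasure (Submodule.span ℤ (Set.range bb)) E (volume : Measure E) :=
  ⟨fun g s _ => by
    simpa only [Submodule.vadd_def, vadd_eq_add] using measure_preimage_add volume (g : E) s⟩

instance : IsFiniteMeasure ((volume : Measure E).restrict DD) :=
  isFiniteMeasure_restrict.2 (ZSpan.fundamentalDomain_isBounded bb).measure_lt_top.ne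

lemma shift {φ : E → ℝ} (hφ : ∀ n x, φ (x + Stmt.lat n) = φ x) (a : E) :
    ∫ x in DD, φ (x + a) = ∫ x in DD, φ x := by
  have h1 := (fund.vadd_of_comm a).setIntegral_eq fund (per_vadd hφ)
  rw [← h1]
  have h2 := (measurePreserving_add_left (volume : Measure E) a).setIntegral_image_emb
    (measurableEmbedding_addLeft a) φ DD
  simp only [add_comm a] at h2
  rw [← h2]
  congr 2
  ext x
  simp only [Set.mem_vadd_set, vadd_eq_add, mem_image, add_comm a]

/-- the measure on the phase space -/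
def nu : Measure (E × E) := ((volume : Measure E).restrict DD).prod volume

instance : SFinite nu := by unfold nu; infer_instance

lemma integrable_nu {Ψ : E × E → ℝ} {g : E → ℝ} (hΨ : Measurable Ψ) (hg : Integrable g)
    (h : ∀ q, |Ψ q| ≤ g q.2) : Integrable Ψ nu := by
  have h1 : Integrable (fun q : E × E => (1 : ℝ) * g q.2) nu :=
    Integrable.mul_prod (integrable_const 1) hg
  exact h1.mono' hΨ.aestronglyMeasurable (ae_of_all _ fun q => by simpa using h q)

lemma shear {Ψ : E → E → ℝ} {g : E → ℝ} (hΨ : Measurable fun q : E × E => Ψ q.1 q.2)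
    (hg : Integrable g) (h : ∀ x v, |Ψ x v| ≤ g v)
    (hp : ∀ n x, Ψ (x + Stmt.lat n) = Ψ x) (τ : ℝ) :
    ∫ q, Ψ (q.1 + τ • q.2) q.2 ∂nu = ∫ q, Ψ q.1 q.2 ∂nu := by
  have h1 : Integrable (fun q : E × E => Ψ q.1 q.2) nu := integrable_nu hΨ hg fun q => h _ _
  have h2 : Integrable (fun q : E × E => Ψ (q.1 + τ • q.2) q.2) nu :=
    integrable_nu (hΨ.comp (by fun_prop : Measurable fun q : E × E => (q.1 + τ • q.2, q.2))) hg
      fun q => h _ _
  unfold nu at *
  rw [integral_prod_symm _ h1, integral_prod_symm _ h2]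
  refine integral_congr_ae (ae_of_all _ fun v => ?_)
  exact shift (φ := fun x => Ψ x v) (fun n x => by rw [hp]) (τ • v)

lemma integrable_snd {g : E → ℝ} (hg : Integrable g) : Integrable (fun q : E × E => g q.2) nu := by
  simpa [nu] using Integrable.mul_prod (integrable_const (μ := volume.restrict DD) (1 : ℝ)) hg

/-- transport and Gronwall -/
theorem gron {G g : ℝ → ℝ} (hG : Continuous G) (hg : Measurable g) (hc : Chain G g)
    {h r : ℝ → E → E → ℝ} {W m : E → ℝ} {t0 C : ℝ} (hC : 0 ≤ C) (hW : Measurable W)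
    (hm : Integrable m) (hh : Continuous fun q : ℝ × E × E => h q.1 q.2.1 q.2.2)
    (hr : Continuous fun q : ℝ × E × E => r q.1 q.2.1 q.2.2)
    (ph : ∀ t n x, h t (x + Stmt.lat n) = h t x) (pr : ∀ t n x, r t (x + Stmt.lat n) = r t x)
    (hd : ∀ x v, ∀ t ∈ Icc 0 t0,
      HasDerivWithinAt (fun τ => h τ (x + τ • v) v) (r t (x + t • v) v) (Icc 0 t0) t)
    (b0 : ∀ t x v, 0 ≤ G (h t x v) * W v) (b1 : ∀ t ∈ Icc 0 t0, ∀ x v, G (h t x v) * W v ≤ m v)
    (b2 : ∀ t ∈ Icc 0 t0, ∀ x v, |g (h t x v) * W v * r t x v| ≤ m v)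
    (hv : ∀ t ∈ Icc 0 t0, ∀ x, ∫ v, g (h t x v) * W v * r t x v ≤ C * ∫ v, G (h t x v) * W v) :
    ∀ t ∈ Icc 0 t0, ∫ q, G (h t q.1 q.2) * W q.2 ∂nu ≤
      (∫ q, G (h 0 q.1 q.2) * W q.2 ∂nu) * Real.exp (C * t) := by
  have mh := hh.measurable
  have mr := hr.measurable
  have mN : ∀ t, Measurable fun q : E × E => G (h t q.1 q.2) * W q.2 := fun t =>
    (hG.measurable.comp (mh.comp (by fun_prop : Measurable fun q : E × E => (t, q)))).mul
      (hW.comp measurable_snd)
  have b1' : ∀ t ∈ Icc 0 t0, ∀ x v, |G (h t x v) * W v| ≤ m v := fun t ht x v =>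
    (abs_of_nonneg (b0 t x v)).trans_le (b1 t ht x v)
  set N : ℝ → ℝ := fun t => ∫ q, G (h t q.1 q.2) * W q.2 ∂nu with hN
  have iN : ∀ t ∈ Icc 0 t0, Integrable (fun q : E × E => G (h t q.1 q.2) * W q.2) nu :=
    fun t ht => integrable_nu (mN t) hm fun q => b1' t ht q.1 q.2
  have N0 : ∀ t, 0 ≤ N t := fun t => integral_nonneg fun q => b0 t _ _
  have cN : ContinuousOn N (Icc 0 t0) :=
    continuousOn_of_dominated (bound := fun q : E × E => m q.2)
      (fun t ht => (iN t ht).aestronglyMeasurable)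
      (fun t ht => ae_of_all _ fun q => b1' t ht q.1 q.2) (integrable_snd hm)
      (ae_of_all _ fun q => Continuous.continuousOn
        ((hG.comp (hh.comp (by fun_prop : Continuous fun t : ℝ => (t, q)))).mul continuous_const))
  have step : ∀ t ∈ Icc 0 t0, N t ≤ N 0 + C * ∫ s in Ioc 0 t, N s := by
    intro t ht
    have h00 : (0 : ℝ) ∈ Icc 0 t0 := ⟨le_rfl, ht.1.trans ht.2⟩
    set Φ : ℝ → E → E → ℝ := fun s x v => g (h s x v) * W v * r s x v with hΦ
    have mΦ : Measurable fun q : ℝ × E × E => Φ q.1 q.2.1 q.2.2 :=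
      ((hg.comp mh).mul (hW.comp (measurable_snd.comp measurable_snd))).mul mr
    have mΦ' : ∀ s, Measurable fun q : E × E => Φ s q.1 q.2 := fun s =>
      mΦ.comp (by fun_prop : Measurable fun q : E × E => (s, q))
    have sub : ∀ s ∈ Ioc 0 t, s ∈ Icc 0 t0 := fun s hs => ⟨hs.1.le, hs.2.trans ht.2⟩
    have iP : Integrable (Function.uncurry fun (q : E × E) (s : ℝ) => Φ s (q.1 + s • q.2) q.2)
        (nu.prod (volume.restrict (Ioc 0 t))) := by
      have h2 := (integrable_snd hm).mul_prod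
        (integrable_const (μ := volume.restrict (Ioc 0 t)) (1 : ℝ))
      refine h2.mono' (mΦ.comp (by fun_prop : Measurable fun z : (E × E) × ℝ =>
        (z.2, z.1.1 + z.2 • z.1.2, z.1.2))).aestronglyMeasurable ?_
      have h3 : ∀ᵐ z ∂(nu.prod (volume.restrict (Ioc 0 t))), z.2 ∈ Ioc 0 t :=
        Measure.quasiMeasurePreserving_snd.ae (ae_restrict_mem measurableSet_Ioc)
      filter_upwards [h3] with z hz
      rw [mul_one]
      exact b2 _ (sub _ hz) _ _
    have e1 : N t = N 0 + ∫ q, (∫ s in Ioc 0 t, Φ s (q.1 + s • q.2) q.2) ∂nu := by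
      have iQ : Integrable (fun q : E × E => ∫ s in Ioc 0 t, Φ s (q.1 + s • q.2) q.2) nu :=
        iP.integral_prod_left
      simp only [hN]
      rw [← shear (Ψ := fun x v => G (h t x v) * W v) (mN t) hm (b1' t ht)
        (fun n x => by rw [ph]) t, ← integral_add (iN 0 h00) iQ]
      refine integral_congr_ae (ae_of_all _ fun q => ?_)
      simp only
      rw [hc (fun τ => h τ (q.1 + τ • q.2) q.2) (fun τ => r τ (q.1 + τ • q.2) q.2) t0 t
        (hh.comp (by fun_prop : Continuous fun τ : ℝ => (τ, q.1 + τ • q.2, q.2)))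
        (hr.comp (by fun_prop : Continuous fun τ : ℝ => (τ, q.1 + τ • q.2, q.2)))
        (hd q.1 q.2) ht, add_mul, ← integral_mul_const, zero_smul, add_zero]
      congr 1
      refine integral_congr_ae (ae_of_all _ fun s => ?_)
      simp only [hΦ]
      ring
    rw [e1, integral_integral_swap iP, ← integral_const_mul]
    have iN' : IntegrableOn N (Ioc 0 t) :=
      ((cN.mono (Icc_subset_Icc_right ht.2)).integrableOn_Icc).mono_set Ioc_subset_Icc_self
    refine add_le_add le_rfl (setIntegral_mono_on iP.integral_prod_right (iN'.const_mul C)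
      measurableSet_Ioc fun s hs => ?_)
    have hs' := sub s hs
    rw [shear (Ψ := Φ s) (mΦ' s) hm (b2 s hs') (fun n x => by simp only [hΦ]; rw [ph, pr]) s]
    have i1 : Integrable (fun q : E × E => Φ s q.1 q.2) nu :=
      integrable_nu (mΦ' s) hm fun q => b2 s hs' _ _
    have i2 := iN s hs'
    simp only [hN]
    unfold nu at i1 i2 ⊢
    rw [integral_prod _ i1, integral_prod _ i2, ← integral_const_mul]
    exact integral_mono i1.integral_prod_left (i2.integral_prod_left.const_mul C)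
      fun x => hv s hs' x
  intro t ht
  have h00 : (0 : ℝ) ≤ t0 := ht.1.trans ht.2
  set N' : ℝ → ℝ := fun s => N (projIcc 0 t0 h00 s) with hN'
  have cN' : Continuous N' :=
    cN.comp_continuous (continuous_subtype_val.comp continuous_projIcc) fun s =>
      (projIcc 0 t0 h00 s).2
  have eN : ∀ s ∈ Icc 0 t0, N' s = N s := fun s hs => by
    simp only [hN', projIcc_of_mem h00 hs]
  have eY : ∀ s ∈ Icc 0 t0, ∫ τ in (0 : ℝ)..s, N' τ = ∫ τ in Ioc 0 s, N τ := fun s hs => by
    rw [intervalIntegral.integral_of_le hs.1]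
    exact setIntegral_congr_fun measurableSet_Ioc fun τ hτ => eN τ ⟨hτ.1.le, hτ.2.trans hs.2⟩
  have dY : ∀ s, HasDerivAt (fun s => N 0 + C * ∫ τ in (0 : ℝ)..s, N' τ) (C * N' s) s := fun s =>
    ((cN'.integral_hasStrictDerivAt 0 s).hasDerivAt.const_mul C).const_add _
  have hY := norm_le_gronwallBound_of_norm_deriv_right_le (δ := N 0) (K := C) (ε := 0) (a := 0)
    (b := t0) (f := fun s => N 0 + C * ∫ τ in (0 : ℝ)..s, N' τ) (f' := fun s => C * N' s)
    (fun s _ => (dY s).continuousAt.continuousWithinAt)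
    (fun s _ => (dY s).hasDerivWithinAt) (by simp [abs_of_nonneg (N0 0)]) (fun s hs => by
      have hs' : s ∈ Icc 0 t0 := Ico_subset_Icc_self hs
      rw [eN s hs', eY s hs', Real.norm_eq_abs, abs_of_nonneg (mul_nonneg hC (N0 s)),
        Real.norm_eq_abs, add_zero]
      exact mul_le_mul_of_nonneg_left ((step s hs').trans (le_abs_self _)) hC) t ht
  rw [gronwallBound_ε0, sub_zero, eY t ht, Real.norm_eq_abs] at hY
  exact (step t ht).trans ((le_abs_self _).trans hY)

lemma shift_nu {Ψ : E → E → ℝ} {g : E → ℝ} (hΨ : Measurable fun q : E × E => Ψ q.1 q.2)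
    (hg : Integrable g) (h : ∀ x v, |Ψ x v| ≤ g v)
    (hp : ∀ n x, Ψ (x + Stmt.lat n) = Ψ x) (a : E) :
    ∫ q, Ψ (q.1 + a) q.2 ∂nu = ∫ q, Ψ q.1 q.2 ∂nu := by
  have h1 : Integrable (fun q : E × E => Ψ q.1 q.2) nu := integrable_nu hΨ hg fun q => h _ _
  have h2 : Integrable (fun q : E × E => Ψ (q.1 + a) q.2) nu :=
    integrable_nu (hΨ.comp (by fun_prop : Measurable fun q : E × E => (q.1 + a, q.2))) hg
      fun q => h _ _
  unfold nu at *
  rw [integral_prod_symm _ h1, integral_prod_symm _ h2]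
  refine integral_congr_ae (ae_of_all _ fun v => ?_)
  exact shift (φ := fun x => Ψ x v) (fun n x => by rw [hp]) a

/-- from an integral bound to a pointwise bound for Lipschitz functions -/
theorem point : ∃ c : ℝ, 0 < c ∧ ∀ (φ : E → E → ℝ) (W m : E → ℝ) (K a : ℝ) (x v : E), 0 < K →
    0 ≤ a → Measurable (fun q : E × E => φ q.1 q.2) → Measurable W → Integrable m →
    (∀ y w, 0 ≤ φ y w) → (∀ w, 0 ≤ W w) → (∀ y w, φ y w * W w ≤ m w) →
    (∀ n y, φ (y + Stmt.lat n) = φ y) → φ x v ≤ K →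
    (∀ y w, |φ y w - φ x w| ≤ K * ‖y - x‖) → (∀ w, ‖w - v‖ ≤ 1 → |φ x w - φ x v| ≤ K * ‖w - v‖) →
    (∀ w, ‖w - v‖ ≤ 1 → a ≤ W w) →
    c * a * φ x v ^ (2 * dd + 1) ≤ K ^ (2 * dd) * ∫ q, φ q.1 q.2 * W q.2 ∂nu := by
  obtain ⟨b, hb⟩ : ∃ b : ℝ, b = (volume : Measure E).real (Metric.ball 0 1) := ⟨_, rfl⟩
  have hb0 : 0 < b := by
    rw [hb]
    exact ENNReal.toReal_pos (Metric.measure_ball_pos _ _ one_pos).ne' measure_ball_lt_top.ne
  refine ⟨b ^ 2 / (2 * 4 ^ (2 * dd)), by positivity,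
    fun φ W m K a x v hK ha mφ mW im φ0 W0 bm per hA l1 l2 hW => ?_⟩
  obtain ⟨δ, hδ⟩ : ∃ δ : ℝ, δ = φ x v / (4 * K) := ⟨_, rfl⟩
  have A0 := φ0 x v
  have hδ0 : 0 ≤ δ := by rw [hδ]; positivity
  have hδK : 4 * K * δ = φ x v := by rw [hδ]; field_simp
  have hδ1 : δ ≤ 1 / 4 := by
    rw [hδ, div_le_div_iff₀ (by positivity) (by norm_num)]; linarith
  obtain ⟨c0, hc0⟩ : ∃ c0 : E, c0 = WithLp.toLp 2 fun _ => (1 / 2 : ℝ) := ⟨_, rfl⟩
  have sub : Metric.closedBall c0 δ ⊆ DD := by
    intro y hy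
    rw [DD, ZSpan.mem_fundamentalDomain]
    intro i
    have h1 := PiLp.norm_apply_le (y - c0) i
    rw [Metric.mem_closedBall, dist_eq_norm] at hy
    have h2 : (y - c0) i = y i - 1 / 2 := by simp [hc0]
    rw [h2, Real.norm_eq_abs] at h1
    have h3 := abs_le.1 (h1.trans (hy.trans hδ1))
    have h4 : bb.repr y i = y i := by simp [bb]
    rw [h4]
    constructor <;> linarith [h3.1, h3.2]
  have mΨ : Measurable fun q : E × E => φ q.1 q.2 * W q.2 := mφ.mul (mW.comp measurable_snd)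
  have bΨ : ∀ y w, |φ y w * W w| ≤ m w := fun y w =>
    (abs_of_nonneg (mul_nonneg (φ0 y w) (W0 w))).trans_le (bm y w)
  rw [← shift_nu (Ψ := fun y w => φ y w * W w) mΨ im bΨ (fun n y => by rw [per]) (x - c0)]
  have i1 : Integrable (fun q : E × E => φ (q.1 + (x - c0)) q.2 * W q.2) nu :=
    integrable_nu (mΨ.comp (by fun_prop : Measurable fun q : E × E => (q.1 + (x - c0), q.2))) im
      fun q => bΨ _ _
  have hS : MeasurableSet (Metric.closedBall c0 δ ×ˢ Metric.closedBall v δ) :=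
    measurableSet_closedBall.prod measurableSet_closedBall
  have vol : nu.real (Metric.closedBall c0 δ ×ˢ Metric.closedBall v δ) = (δ ^ dd * b) ^ 2 := by
    rw [nu, Measure.real, Measure.prod_prod, Measure.restrict_apply measurableSet_closedBall,
      inter_eq_left.2 sub, ENNReal.toReal_mul, ← Measure.real, ← Measure.real,
      Measure.addHaar_real_closedBall _ _ hδ0, Measure.addHaar_real_closedBall _ _ hδ0, finrank_Ix,
      ← hb, sq]
  have fin : nu (Metric.closedBall c0 δ ×ˢ Metric.closedBall v δ) ≠ ∞ := by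
    rw [nu, Measure.prod_prod]
    exact ENNReal.mul_ne_top (measure_ne_top _ _) measure_closedBall_lt_top.ne
  have low := setIntegral_ge_of_const_le_real (c := φ x v / 2 * a) hS fin (fun q hq => by
    have h1 := hq.1
    have h2 := hq.2
    rw [Metric.mem_closedBall, dist_eq_norm] at h1 h2
    have h3 := l1 (q.1 + (x - c0)) q.2
    rw [show q.1 + (x - c0) - x = q.1 - c0 by abel] at h3
    have h4 := l2 q.2 (h2.trans (by linarith))
    have h5 := mul_le_mul_of_nonneg_left h1 hK.le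
    have h6 := mul_le_mul_of_nonneg_left h2 hK.le
    have h7 : φ x v / 2 ≤ φ (q.1 + (x - c0)) q.2 := by
      linarith [(abs_le.1 h3).1, (abs_le.1 h4).1]
    exact mul_le_mul h7 (hW q.2 (h2.trans (by linarith))) ha (φ0 _ _)) i1.integrableOn
  have up := setIntegral_le_integral (s := Metric.closedBall c0 δ ×ˢ Metric.closedBall v δ) i1
    (ae_of_all _ fun q => mul_nonneg (φ0 _ _) (W0 _))
  rw [vol] at low
  refine le_trans (le_of_eq ?_) (mul_le_mul_of_nonneg_left (low.trans up) (pow_nonneg hK.le _))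
  have e : φ x v ^ (2 * dd) = 4 ^ (2 * dd) * K ^ (2 * dd) * (δ ^ dd) ^ 2 := by
    rw [← hδK, mul_pow, mul_pow, ← pow_mul, mul_comm dd 2]
  rw [pow_succ (φ x v), e]
  field_simp

end Pool.Agent.BoltzM.L1
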