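import Pool.Agent.BoltzM.L1.Weak
import Pool.Agent.BoltzM.Uq.Pov

/-! The estimate in the velocity variable for the truncated moments. -/

set_option autoImplicit false

open MeasureTheory Set Filter Topology
open scoped ENNReal

noncomputable section

namespace Pool.Agent.BoltzM.L1

open Coll C3 Uq MainU

/-- the truncated power -/
def mm (R : ℝ) (n : ℕ) (x : ℝ) : ℝ := min x R ^ n

/-- the truncated moment weight -/
def Wm (R : ℝ) (n : ℕ) (x : ℝ) : ℝ := x * mm R n x

section
variable {R x y z : ℝ} {n : ℕ}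

lemma mm_nonneg (hR : 0 ≤ R) (hx : 0 ≤ x) : 0 ≤ mm R n x := pow_nonneg (le_min hx hR) _

lemma mm_mono (hR : 0 ≤ R) (hx : 0 ≤ x) (h : x ≤ y) : mm R n x ≤ mm R n y :=
  pow_le_pow_left₀ (le_min hx hR) (min_le_min_right _ h) _

lemma mm_le (hR : 0 ≤ R) (hx : 0 ≤ x) : mm R n x ≤ R ^ n :=
  pow_le_pow_left₀ (le_min hx hR) (min_le_right _ _) _

lemma mm_two (hR : 0 ≤ R) (_hx : 0 ≤ x) (hy : 0 ≤ y) (h : y ≤ 2 * x) :
    mm R n y ≤ 2 ^ n * mm R n x := by
  rw [mm, mm, ← mul_pow]
  refine pow_le_pow_left₀ (le_min hy hR) ?_ _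
  rw [mul_min_of_nonneg _ _ zero_le_two]
  exact min_le_min h (by linarith)

lemma pow_gap (hx : 0 ≤ x) (h : x ≤ y) (n : ℕ) : x * (y ^ n - x ^ n) ≤ n * y ^ n * (y - x) := by
  have hy := hx.trans h
  induction n with
  | zero => simp
  | succ n ih =>
    have h1 := mul_le_mul_of_nonneg_left ih hy
    have h2 := mul_le_mul_of_nonneg_right (pow_le_pow_left₀ hx h (n + 1)) (sub_nonneg.2 h)
    push_cast
    rw [pow_succ, pow_succ] at h2 ⊢
    linarith

lemma Wm_gap (hR : 0 ≤ R) (hx : 0 ≤ x) (h : x ≤ y) :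
    Wm R n x ≤ Wm R n y ∧ Wm R n y - Wm R n x ≤ (n + 1) * mm R n y * (y - x) := by
  have hy := hx.trans h
  have h1 := mm_mono (n := n) hR hx h
  have h0 := mm_nonneg (n := n) hR hy
  refine ⟨mul_le_mul h h1 (mm_nonneg hR hx) hy, ?_⟩
  have h2 : x * (mm R n y - mm R n x) ≤ n * mm R n y * (y - x) := by
    rcases le_total R x with h3 | h3
    · rw [mm, mm, min_eq_right h3, min_eq_right (h3.trans h), sub_self, mul_zero]
      exact mul_nonneg (by positivity) (sub_nonneg.2 h)
    · have h4 := pow_gap hx (le_min h h3) n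
      rw [mm, mm, min_eq_left h3]
      refine h4.trans (mul_le_mul_of_nonneg_left (sub_le_sub_right (min_le_left _ _) _) ?_)
      exact mul_nonneg (Nat.cast_nonneg n) h0
  unfold Wm
  linarith

lemma Wm_lip (hR : 0 ≤ R) (hx : 0 ≤ x) (hy : 0 ≤ y) (h1 : mm R n x ≤ z) (h2 : mm R n y ≤ z) :
    |Wm R n y - Wm R n x| ≤ (n + 1) * z * |y - x| := by
  have key : ∀ a b : ℝ, 0 ≤ a → a ≤ b → mm R n b ≤ z →
      |Wm R n b - Wm R n a| ≤ (n + 1) * z * |b - a| := fun a b ha hab hb => by
    obtain ⟨h3, h4⟩ := Wm_gap (n := n) hR ha hab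
    rw [abs_of_nonneg (sub_nonneg.2 h3), abs_of_nonneg (sub_nonneg.2 hab)]
    refine h4.trans (mul_le_mul_of_nonneg_right ?_ (sub_nonneg.2 hab))
    exact mul_le_mul_of_nonneg_left hb (by positivity)
  rcases le_total x y with h | h
  · exact key x y hx h h2
  · rw [abs_sub_comm, abs_sub_comm y]; exact key y x hy h h1

lemma Wm_delta {a b a' b' τ : ℝ} (hR : 0 ≤ R) (hb : 0 ≤ b) (hab : b ≤ a) (ha' : 0 ≤ a')
    (hb' : 0 ≤ b') (he : a' + b' = a + b) (hτ : τ ≤ 1 → |a' - a| ≤ 2 * b * τ) :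
    Wm R n a' + Wm R n b' - Wm R n a - Wm R n b ≤
      4 * (n + 1) * 2 ^ n * (b * mm R n a) * min 1 τ := by
  have ha := hb.trans hab
  have m0 := mm_nonneg (n := n) hR ha
  have m1 : ∀ x, 0 ≤ x → x ≤ a + b → mm R n x ≤ 2 ^ n * mm R n a := fun x hx h =>
    mm_two hR ha hx (by linarith)
  have c0 : 0 ≤ ((n : ℝ) + 1) * (2 ^ n * mm R n a) := by positivity
  rcases le_total τ 1 with h | h
  · rw [min_eq_right h]
    have h1 := Wm_lip hR ha ha' (m1 a ha (by linarith)) (m1 a' ha' (by linarith))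
    have h2 := Wm_lip hR hb hb' (m1 b hb (by linarith)) (m1 b' hb' (by linarith))
    rw [show b' - b = -(a' - a) by linarith, abs_neg] at h2
    have h3 := mul_le_mul_of_nonneg_left (hτ h) c0
    linarith [(abs_le.1 h1).2, (abs_le.1 h2).2]
  · rw [min_eq_left h]
    have hs : 0 ≤ a + b := add_nonneg ha hb
    have h1 := mul_le_mul_of_nonneg_left (mm_mono (n := n) hR ha' (show a' ≤ a + b by linarith)) ha'
    have h2 := mul_le_mul_of_nonneg_left (mm_mono (n := n) hR hb' (show b' ≤ a + b by linarith)) hb'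
    have h3 := Wm_lip hR ha hs (m1 a ha (by linarith)) (m1 _ hs le_rfl)
    rw [add_sub_cancel_left, abs_of_nonneg hb] at h3
    have h4 := mul_nonneg hb (mm_nonneg (n := n) hR hb)
    have h5 := mul_nonneg c0 hb
    have h6 : Wm R n (a + b) = a' * mm R n (a + b) + b' * mm R n (a + b) := by
      rw [Wm, ← add_mul, he]
    have h7 := (abs_le.1 h3).2
    rw [h6] at h7
    unfold Wm at *
    linarith

end

@[fun_prop] lemma measurable_mm (R : ℝ) (n : ℕ) : Measurable (mm R n) := by unfold mm; fun_prop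

@[fun_prop] lemma measurable_Wm (R : ℝ) (n : ℕ) : Measurable (Wm R n) := by unfold Wm; fun_prop

variable [Dim]

lemma br_near' (v w : E) (o : S2) (h : |rho (v, w, o)| ≤ 1) :
    |br (pw v w o) - br w| ≤ 2 * br v * |rho (v, w, o)| := by
  have e : rho (w, v, o) = -rho (v, w, o) := rho_swp (v, w, o)
  have := br_near w v o (by rwa [e, abs_neg])
  rwa [e, abs_neg, pv_swap v w] at this

lemma kx_prod {Φ : E × E → ℝ} {α β : E → ℝ} (mΦ : Measurable Φ) (Φ0 : ∀ z, 0 ≤ Φ z)
    (mα : Measurable α) (mβ : Measurable β) (iα : Integrable α) (iβ : Integrable β)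
    (α0 : ∀ v, 0 ≤ α v) (β0 : ∀ v, 0 ≤ β v)
    (h : ∀ v w, (br v + br w) * Φ (v, w) ≤ α v * β w + β v * α w) :
    Integrable (fun q : E × E × S2 => kx q * Φ (q.1, q.2.1)) mu3 ∧
      ∫ q, kx q * Φ (q.1, q.2.1) ∂mu3 ≤ 4 * cA * ((∫ v, α v) * ∫ v, β v) := by
  have hA := cA_pos
  have n1 : 0 ≤ ∫ v, α v := integral_nonneg α0
  have n2 : 0 ≤ ∫ v, β v := integral_nonneg β0
  refine int_le_of_lint (by fun_prop) (fun q => mul_nonneg (kx_nonneg q) (Φ0 _))
    (by positivity) ?_
  have e1 := ofReal_integral_eq_lintegral_ofReal iα (ae_of_all _ α0)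
  have e2 := ofReal_integral_eq_lintegral_ofReal iβ (ae_of_all _ β0)
  rw [lintegral_mu3 _ (by fun_prop)]
  calc _ ≤ ∫⁻ v, ∫⁻ w, ENNReal.ofReal (2 * cA) * (ENNReal.ofReal (α v) * ENNReal.ofReal (β w) +
        ENNReal.ofReal (β v) * ENNReal.ofReal (α w)) := by
        refine lintegral_mono fun v => lintegral_mono fun w => ?_
        simp only [ENNReal.ofReal_mul' (Φ0 _)]
        rw [lintegral_mul_const _ (by fun_prop)]
        refine (mul_le_mul_left (lint_kx_br v w) _).trans ?_
        rw [← ENNReal.ofReal_mul' (Φ0 _), ← ENNReal.ofReal_mul (α0 v), ← ENNReal.ofReal_mul (β0 v),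
          ← ENNReal.ofReal_add (mul_nonneg (α0 v) (β0 w)) (mul_nonneg (β0 v) (α0 w)),
          ← ENNReal.ofReal_mul (by positivity)]
        refine ENNReal.ofReal_le_ofReal ?_
        have := mul_le_mul_of_nonneg_left (h v w) (show 0 ≤ 2 * cA by positivity)
        linarith
    _ = ∫⁻ v, ENNReal.ofReal (2 * cA) * (ENNReal.ofReal (α v) * ENNReal.ofReal (∫ v, β v) +
        ENNReal.ofReal (β v) * ENNReal.ofReal (∫ v, α v)) := by
        refine lintegral_congr fun v => ?_
        rw [lintegral_const_mul _ (by fun_prop), lintegral_add_left (by fun_prop),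
          lintegral_const_mul _ (by fun_prop), lintegral_const_mul _ (by fun_prop), e1, e2]
    _ = _ := by
        rw [lintegral_const_mul _ (by fun_prop), lintegral_add_left (by fun_prop),
          lintegral_mul_const _ (by fun_prop), lintegral_mul_const _ (by fun_prop), ← e1, ← e2,
          ← ENNReal.ofReal_mul n1, ← ENNReal.ofReal_mul n2,
          ← ENNReal.ofReal_add (mul_nonneg n1 n2) (mul_nonneg n2 n1),
          ← ENNReal.ofReal_mul (by positivity)]
        congr 1
        ring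

lemma Wm_br_nonneg {R : ℝ} (hR : 0 ≤ R) (n : ℕ) (v : E) : 0 ≤ Wm R n (br v) :=
  mul_nonneg (br_pos v).le (mm_nonneg hR (br_pos v).le)

lemma abs_Wm_br_le {R : ℝ} (hR : 0 ≤ R) (n : ℕ) (v : E) : |Wm R n (br v)| ≤ R ^ n * wt v := by
  rw [abs_of_nonneg (Wm_br_nonneg hR n v), Wm, mul_comm]
  exact mul_le_mul (mm_le hR (br_pos v).le) (br_le_wt v) (br_pos v).le (pow_nonneg hR _)

theorem momV (n : ℕ) (K : ℝ) : ∃ C : ℝ, 0 ≤ C ∧ ∀ (F : E → ℝ) (R : ℝ), Nice pW K F →
    (∀ v, 0 ≤ F v) → 0 ≤ R → ∫ v, Wm R n (br v) * QO F v ≤ C * ∫ v, F v * Wm R n (br v) := by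
  have hA := cA_pos
  have hJ := cJ_nonneg
  refine ⟨4 * (n + 1) * 2 ^ n * (4 * cA * (|K| * cJ)), by positivity, fun F R H F0 hR => ?_⟩
  rw [abs_of_nonneg H.nonneg]
  have mF := H.measurable
  have dF : Dec (dd + 60) K F := Nice.dec H (by omega)
  have hRn := pow_nonneg hR n
  have i1 : Integrable (fun q : E × E × S2 => ker3 q *
      (Wm R n (br (pv q.1 q.2.1 q.2.2)) - Wm R n (br q.1)) * (F q.2.1 * F q.1)) mu3 := by
    refine integrable_of_le (c := (n + 1) * R ^ n * 2) mF mF dF dF (by fun_prop) ?_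
    rintro ⟨v, w, o⟩
    have h1 := Wm_lip (n := n) hR (br_pos v).le (br_pos (pv v w o)).le (mm_le hR (br_pos _).le)
      (mm_le hR (br_pos _).le)
    have a1 := one_le_br v
    have a2 := one_le_br w
    have h2 : |br (pv v w o) - br v| ≤ 2 * (wt v * wt w) * min 1 |rho (v, w, o)| := by
      have b1 : br v * br w ≤ wt v * wt w :=
        mul_le_mul (br_le_wt v) (br_le_wt w) (br_pos w).le (wt_pos' v).le
      rcases le_total |rho (v, w, o)| 1 with h | h
      · rw [min_eq_right h]
        refine (br_near v w o h).trans (mul_le_mul_of_nonneg_right ?_ (abs_nonneg _))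
        nlinarith
      · rw [min_eq_left h, mul_one, abs_le]
        constructor <;> linarith [br_energy v w o, br_pos (pv v w o), br_pos (pw v w o),
          add_le_two_mul v w]
    have h3 := mul_le_mul_of_nonneg_left (h1.trans (mul_le_mul_of_nonneg_left h2 (by positivity)))
      (ker3_nonneg (v, w, o))
    rw [abs_mul, abs_mul, abs_of_nonneg (ker3_nonneg _), abs_mul]
    refine (mul_le_mul_of_nonneg_right h3 (mul_nonneg (abs_nonneg _) (abs_nonneg _))).trans
      (le_of_eq ?_)
    simp only [kx]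
    ring
  have h1 := weak_sym H (ψ := fun v => Wm R n (br v)) (by fun_prop) (abs_Wm_br_le hR n) i1
  have iα : Integrable fun v => F v * Wm R n (br v) := by
    have := (Dec.integrable (m := 30) (dF.mono (by omega)) mF measurable_wt fun v =>
      (abs_of_pos (wt_pos' v)).le.trans (wt_le_pow v)).norm.const_mul (R ^ n)
    refine this.mono' (by fun_prop : Measurable _).aestronglyMeasurable (ae_of_all _ fun v => ?_)
    rw [Real.norm_eq_abs, Real.norm_eq_abs, abs_mul, abs_mul, abs_of_pos (wt_pos' v),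
      mul_left_comm]
    exact mul_le_mul_of_nonneg_left (abs_Wm_br_le hR n v) (abs_nonneg _)
  have iβ : Integrable fun v => F v * br v := Dec.integrable (m := 2) (dF.mono (by omega)) mF
    measurable_br fun v => (abs_of_pos (br_pos v)).le.trans (br_le v)
  have hβ : ∫ v, F v * br v ≤ K * cJ := by
    rw [← ENNReal.ofReal_le_ofReal_iff (mul_nonneg H.nonneg hJ), ofReal_integral_eq_lintegral_ofReal
      iβ (ae_of_all _ fun v => mul_nonneg (F0 v) (br_pos v).le)]
    refine le_trans (lintegral_mono fun v => ENNReal.ofReal_le_ofReal ?_)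
      (Dec.lint_le (m := 2) (dF.mono (by omega)))
    rw [abs_of_nonneg (F0 v), mul_comm]
    exact mul_le_mul_of_nonneg_right (br_le v) (F0 v)
  have α0 : ∀ v, 0 ≤ F v * Wm R n (br v) := fun v => mul_nonneg (F0 v) (Wm_br_nonneg hR n v)
  obtain ⟨j1, h2⟩ := kx_prod (Φ := fun z => min (br z.1) (br z.2) * mm R n (max (br z.1) (br z.2)) *
      (F z.2 * F z.1)) (α := fun v => 2 * (F v * Wm R n (br v))) (β := fun v => F v * br v)
    (by fun_prop) (fun z => mul_nonneg (mul_nonneg (le_min (br_pos _).le (br_pos _).le)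
      (mm_nonneg hR (le_max_of_le_left (br_pos _).le))) (mul_nonneg (F0 _) (F0 _)))
    (by fun_prop) (by fun_prop) (iα.const_mul 2) iβ (fun v => mul_nonneg zero_le_two (α0 v))
    (fun v => mul_nonneg (F0 v) (br_pos v).le) fun v w => by
      have x0 := mul_nonneg (F0 w) (F0 v)
      have x1 := mul_nonneg (α0 v) (mul_nonneg (F0 w) (br_pos w).le)
      have x2 := mul_nonneg (α0 w) (mul_nonneg (F0 v) (br_pos v).le)
      simp only
      rcases le_total (br w) (br v) with h | h
      · rw [min_eq_right h, max_eq_left h]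
        have := mul_le_mul_of_nonneg_right h (mul_nonneg (mul_nonneg (br_pos w).le
          (mm_nonneg (n := n) hR (br_pos v).le)) x0)
        unfold Wm at *
        linarith
      · rw [min_eq_left h, max_eq_right h]
        have := mul_le_mul_of_nonneg_right h (mul_nonneg (mul_nonneg (br_pos v).le
          (mm_nonneg (n := n) hR (br_pos w).le)) x0)
        unfold Wm at *
        linarith
  have i2 : Integrable (fun q : E × E × S2 => ker3 q * (Wm R n (br (pv q.1 q.2.1 q.2.2)) +
      Wm R n (br (pw q.1 q.2.1 q.2.2)) - Wm R n (br q.1) - Wm R n (br q.2.1)) *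
        (F q.2.1 * F q.1)) mu3 := by
    refine (i1.add (Integrable.swp i1)).congr (ae_of_all _ fun q => ?_)
    simp only [Pi.add_apply, ker3_swp]
    simp only [swp, pv_swap q.1 q.2.1]
    ring
  have h3 := integral_mono i2 (j1.const_mul (4 * (n + 1) * 2 ^ n)) fun ⟨v, w, o⟩ => by
    have key : Wm R n (br (pv v w o)) + Wm R n (br (pw v w o)) - Wm R n (br v) - Wm R n (br w) ≤
        4 * (n + 1) * 2 ^ n * (min (br v) (br w) * mm R n (max (br v) (br w))) *
          min 1 |rho (v, w, o)| := by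
      rcases le_total (br w) (br v) with h | h
      · rw [min_eq_right h, max_eq_left h]
        exact Wm_delta hR (br_pos w).le h (br_pos _).le (br_pos _).le (br_energy v w o)
          (br_near v w o)
      · rw [min_eq_left h, max_eq_right h]
        have := Wm_delta (n := n) hR (br_pos v).le h (br_pos (pw v w o)).le (br_pos (pv v w o)).le
          (by linarith [br_energy v w o]) (br_near' v w o)
        linarith
    refine (mul_le_mul_of_nonneg_right (mul_le_mul_of_nonneg_left key (ker3_nonneg _))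
      (mul_nonneg (F0 w) (F0 v))).trans (le_of_eq ?_)
    simp only [kx]
    ring
  rw [integral_const_mul, ← h1] at h3
  rw [integral_const_mul] at h2
  have n1 : 0 ≤ ∫ v, F v * Wm R n (br v) := integral_nonneg α0
  have h4 := mul_le_mul_of_nonneg_left hβ (show 0 ≤ 4 * cA * (2 * ∫ v, F v * Wm R n (br v)) by
    positivity)
  have h5 := mul_le_mul_of_nonneg_left (h2.trans ((mul_assoc _ _ _).symm.trans_le h4))
    (show (0 : ℝ) ≤ 4 * (n + 1) * 2 ^ n by positivity)
  linarith

end Pool.Agent.BoltzM.L1
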