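import Pool.Agent.BoltzM.L1.Weak
import Pool.Agent.BoltzM.Uq.Cross
import Pool.Agent.BoltzM.Uq.Pov

/-! The estimate in the velocity variable for the negative part. -/

set_option autoImplicit false

open MeasureTheory Set Filter Topology
open scoped ENNReal

noncomputable section

namespace Pool.Agent.BoltzM.L1

open Coll C3 Uq MainU

lemma sg_half (y : ℝ) : -1 ≤ (sg y - 1) / 2 ∧ (sg y - 1) / 2 ≤ 0 ∧
    (sg y - 1) / 2 * y = max (-y) 0 := by
  unfold sg
  split_ifs with h h'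
  · rw [max_eq_right (by linarith)]; norm_num
  · rw [max_eq_left (by linarith)]; norm_num
  · rw [le_antisymm (not_lt.1 h) (not_lt.1 h')]; norm_num

lemma pos_sub_neg (y : ℝ) : y = max y 0 - max (-y) 0 := by
  rcases le_total 0 y with h | h
  · rw [max_eq_left h, max_eq_right (by linarith), sub_zero]
  · rw [max_eq_right h, max_eq_left (by linarith)]; ring

lemma pos_alg {kc kf W s P N P' N' Q M Q' M' : ℝ} (h1 : 0 ≤ kc) (h2 : 0 ≤ kf) (hW : 0 ≤ W)
    (s1 : -1 ≤ s) (s0 : s ≤ 0) (hs : s * (P - N) = N) (a1 : 0 ≤ P') (a2 : 0 ≤ N') (a3 : 0 ≤ Q')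
    (a4 : 0 ≤ M') :
    (kc + kf) * (s * W) * ((Q' - M') * (P' - N') - (Q - M) * (P - N)) ≤
      kc * (s * W) * (-M' * (P' - N') - -M * (P - N)) + ((kc + kf) * W * (Q' * N') +
        kf * W * (M' * P') - (kc + kf) * W * (Q * N) + kf * W * (M * N)) := by
  have b1 : s * (Q' * (P' - N')) ≤ Q' * N' := by
    nlinarith [mul_nonneg (neg_nonneg.2 s0) (mul_nonneg a3 a1),
      mul_nonneg (show 0 ≤ 1 + s by linarith) (mul_nonneg a3 a2)]
  have b2 : s * (-M' * (P' - N')) ≤ M' * P' := by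
    nlinarith [mul_nonneg (neg_nonneg.2 s0) (mul_nonneg a4 a2),
      mul_nonneg (show 0 ≤ 1 + s by linarith) (mul_nonneg a4 a1)]
  have c1 := mul_le_mul_of_nonneg_left b1 (mul_nonneg (add_nonneg h1 h2) hW)
  have c2 := mul_le_mul_of_nonneg_left b2 (mul_nonneg h2 hW)
  have e : (kc + kf) * (s * W) * ((Q' - M') * (P' - N') - (Q - M) * (P - N)) =
      kc * (s * W) * (-M' * (P' - N') - -M * (P - N)) + ((kc + kf) * W * (s * (Q' * (P' - N'))) +
        kf * W * (s * (-M' * (P' - N'))) - (kc + kf) * W * (Q * (s * (P - N))) +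
        kf * W * (M * (s * (P - N)))) := by ring
  rw [e, hs]
  linarith

variable [Dim]

lemma last_le {N : E → ℝ} {K : ℝ} (mN : Measurable N) (N0 : ∀ v, 0 ≤ N v)
    (dN : Dec (dd + 60) K N) :
    ∫ q, kf q * wt q.1 * (N q.2.1 * N q.1) ∂mu3 ≤ cA * (K * cJ) * 2 ^ 15 * ∫ v, N v * wt v := by
  have n1 : ∀ v, 0 ≤ wt v * N v := fun v => mul_nonneg (wt_pos' v).le (N0 v)
  have n2 := mul_nonneg dN.nonneg cJ_nonneg
  have n3 : 0 ≤ ∫ v, N v * wt v := integral_nonneg fun v => mul_nonneg (N0 v) (wt_pos' v).le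
  have hA := cA_pos
  refine (int_le_of_lint (by fun_prop) (fun q => mul_nonneg
    (mul_nonneg (kf_nonneg q) (wt_pos' _).le) (mul_nonneg (N0 _) (N0 _))) (by positivity) ?_).2
  have h1 := lint_kx_le (a := fun v => ENNReal.ofReal (wt v * N v))
    (b := fun v => ENNReal.ofReal |N v|) (by fun_prop) (by fun_prop)
  have h2 := lint_pow_le mN dN (m := 29) (by norm_num)
  simp only [abs_of_nonneg (N0 _)] at h1 h2
  have h3 : ∫⁻ v, ENNReal.ofReal ((1 + ‖v‖) ^ 29) * ENNReal.ofReal (wt v * N v) ≤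
      ENNReal.ofReal (K * cJ) := by
    refine le_trans (lintegral_mono fun v => ?_) (Dec.lint_le (m := 59) dN)
    rw [← ENNReal.ofReal_mul (by positivity), ← mul_assoc, show 59 = 29 + 30 from rfl, pow_add,
      abs_of_nonneg (N0 v)]
    have := N0 v
    gcongr
    exact wt_le_pow v
  refine le_trans (lintegral_mono fun q => ?_)
    (h1.trans ((mul_le_mul_right (mul_le_mul' h3 h2) _).trans (le_of_eq ?_)))
  · rw [← ENNReal.ofReal_mul (n1 _), ← ENNReal.ofReal_mul (kx_nonneg _)]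
    refine ENNReal.ofReal_le_ofReal ?_
    have := mul_le_mul_of_nonneg_right (kf_le q) (mul_nonneg (n1 q.1) (N0 q.2.1))
    linarith
  · rw [← ENNReal.ofReal_mul n2, ← ENNReal.ofReal_mul hA.le]
    congr 1
    ring

theorem posV : ∃ p : ℕ, pW ≤ p ∧ ∀ K : ℝ, ∃ C : ℝ, 0 ≤ C ∧ ∀ F : E → ℝ, Nice p K F →
    ∫ v, (sg (F v) - 1) / 2 * wt v * QO F v ≤ C * ∫ v, max (-F v) 0 * wt v := by
  obtain ⟨Cp, n, hCp, hp⟩ := pov
  obtain ⟨pc, hc⟩ := cross
  refine ⟨pW + pc + (dd + 61 + n), by omega, fun K => ?_⟩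
  obtain ⟨C1, hc⟩ := hc K
  have hA := cA_pos
  have hJ := cJ_nonneg
  refine ⟨|C1| + Cp * (|K| * cJ) + cA * (|K| * cJ) * 2 ^ 15, by positivity, fun F H => ?_⟩
  rw [abs_of_nonneg H.nonneg]
  obtain ⟨P, hP⟩ : ∃ P : E → ℝ, P = fun v => max (F v) 0 := ⟨_, rfl⟩
  obtain ⟨N, hN⟩ : ∃ N : E → ℝ, N = fun v => max (-F v) 0 := ⟨_, rfl⟩
  obtain ⟨ψ, hψ⟩ : ∃ ψ : E → ℝ, ψ = fun v => (sg (F v) - 1) / 2 * wt v := ⟨_, rfl⟩
  have HP : Nice _ K P := hP ▸ H.posPart
  have HN : Nice _ K N := hN ▸ H.neg.posPart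
  have mF := H.measurable
  have mP := HP.measurable
  have mN := HN.measurable
  have mψ : Measurable ψ := by rw [hψ]; fun_prop
  have P0 : ∀ v, 0 ≤ P v := fun v => hP ▸ le_max_right _ _
  have N0 : ∀ v, 0 ≤ N v := fun v => hN ▸ le_max_right _ _
  have eF : ∀ v, F v = P v - N v := fun v => by rw [hP, hN]; exact pos_sub_neg _
  have bψ : ∀ v, |ψ v| ≤ wt v := fun v => by
    rw [hψ]
    obtain ⟨a1, a2, -⟩ := sg_half (F v)
    simp only
    rw [abs_mul, abs_of_pos (wt_pos' v)]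
    exact mul_le_of_le_one_left (wt_pos' v).le (abs_le.2 ⟨a1, by linarith⟩)
  have dF : Dec (dd + 60) K F := Dec.mono H.1 (by omega)
  have dP : Dec (dd + 60) K P := Dec.mono HP.1 (by omega)
  have dN : Dec (dd + 60) K N := Dec.mono HN.1 (by omega)
  have dM : ∀ m, m ≤ pW + pc + (dd + 61 + n) → Dec m K fun v => -N v := fun m hm =>
    Dec.mono HN.neg.1 hm
  have bw : ∀ v, |wt v| ≤ wt v := fun v => (abs_of_pos (wt_pos' v)).le
  have n3 : 0 ≤ ∫ v, N v * wt v := integral_nonneg fun v => mul_nonneg (N0 v) (wt_pos' v).le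
  have e1 : ∀ v, (sg (F v) - 1) / 2 * wt v = ψ v := fun v => by rw [hψ]
  have e2 : ∀ v, max (-F v) 0 = N v := fun v => by rw [hN]
  simp only [e1, e2]
  refine le_of_tendsto' (tendsto_kc (H.mono (by omega)) mψ bψ) fun m => ?_
  obtain ⟨ε, hε⟩ : ∃ ε : ℝ, ε = 1 / ((m : ℝ) + 1) := ⟨_, rfl⟩
  have hε0 : 0 < ε := by rw [hε]; positivity
  rw [← hε]
  have k1 : ∀ q, kf q ≤ 1 * kx q := fun q => by rw [one_mul]; exact kf_le q
  have k0 : ∀ q, 0 ≤ kc ε q + kf q := fun q => add_nonneg (kc_nonneg ε q) (kf_nonneg q)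
  have k2 : ∀ q, kc ε q + kf q ≤ (ε⁻¹ + 1) * kx q := fun q => by
    rw [add_mul]; exact add_le_add (kc_le_kx hε0 q) (k1 q)
  have mk : Measurable fun q => kc ε q + kf q := by fun_prop
  have i0 := integrable_inc mk k0 k2 mψ bψ mF mF dF dF
  have i1 := integrable_inc (measurable_kc ε) (kc_nonneg ε) (kc_le_kx hε0) mψ bψ mN.neg mF
    (dM _ (by omega)) dF
  have i2 := integrable_post mk k0 k2 measurable_wt bw mP mN dP dN
  have i3 := integrable_post measurable_kf kf_nonneg k1 measurable_wt bw mN mP dN dP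
  have i4 := integrable_pre mk k0 k2 measurable_wt bw mP mN dP dN
  have i5 := integrable_pre measurable_kf kf_nonneg k1 measurable_wt bw mN mN dN dN
  have h1 := integral_mono i0 (i1.add (((i2.add i3).sub i4).add i5)) fun q => by
    obtain ⟨a1, a2, a3⟩ := sg_half (F q.1)
    rw [e2] at a3
    nth_rewrite 2 [eF q.1] at a3
    have := pos_alg (P := P q.1) (N := N q.1) (Q := P q.2.1) (M := N q.2.1) (kc_nonneg ε q)
      (kf_nonneg q) (wt_pos' q.1).le a1 a2 a3 (P0 (pv q.1 q.2.1 q.2.2)) (N0 (pv q.1 q.2.1 q.2.2))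
      (P0 (pw q.1 q.2.1 q.2.2)) (N0 (pw q.1 q.2.1 q.2.2))
    simp only [← eF, e1] at this
    simp only [inc, Pi.add_apply, Pi.sub_apply, Pi.neg_apply]
    exact this
  rw [integral_add' i1 (((i2.add i3).sub i4).add i5), integral_add' ((i2.add i3).sub i4) i5,
    integral_sub' (i2.add i3) i4, integral_add' i2 i3,
    post_eq (k := fun q => kc ε q + kf q) (fun q => by rw [kc_coll, kf_coll]) wt P N,
    post_eq kf_coll wt N P] at h1
  have h2 := hc F (fun v => -N v) ψ K ε hε0 (H.mono (by omega)) mN.neg (dM _ (by omega)) mψ bψ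
  simp only [abs_neg, abs_of_nonneg (N0 _)] at h2
  have h3 := last_le mN N0 dN
  obtain ⟨j1, h4⟩ := povz hCp hp mP mN P0 N0 (Dec.mono HP.1 (by omega)) (Dec.mono HN.1 (by omega))
  have e3 : ∫ q, kf q * wt (pv q.1 q.2.1 q.2.2) * (N q.2.1 * P q.1) ∂mu3 =
      ∫ q, kf q * wt (pw q.1 q.2.1 q.2.2) * (P q.2.1 * N q.1) ∂mu3 := by
    rw [← integral_swp]
    refine integral_congr_ae (ae_of_all _ fun p => ?_)
    simp only [kf_swp]
    simp only [swp, pv_swap p.1 p.2.1]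
    ring
  have b1 : ∀ q : E × E × S2, |wt (pv q.1 q.2.1 q.2.2)| ≤ wt q.1 * wt q.2.1 := fun q =>
    (bw _).trans (wt_pv_le _ _ _)
  have b2 : ∀ q : E × E × S2, |wt (pw q.1 q.2.1 q.2.2)| ≤ wt q.1 * wt q.2.1 := fun q =>
    (bw _).trans (wt_pw_le _ _ _)
  have j2 := intg mk k0 k2 (by fun_prop) b1 mP mN dP dN
  have j3 := intg measurable_kf kf_nonneg k1 (by fun_prop) b2 mP mN dP dN
  have j4 := integrable_pre measurable_kf kf_nonneg k1 measurable_wt bw mP mN dP dN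
  have h5 := integral_mono ((j2.add j3).add j4) (j1.add i4) fun q => by
    have x0 := mul_nonneg (P0 q.2.1) (N0 q.1)
    have a1 : kc ε q * (wt (pv q.1 q.2.1 q.2.2) - wt q.1) ≤
        kn q * |wt (pv q.1 q.2.1 q.2.2) - wt q.1| :=
      (mul_le_mul_of_nonneg_left (le_abs_self _) (kc_nonneg ε q)).trans
        (mul_le_mul_of_nonneg_right (kc_le_kn ε q) (abs_nonneg _))
    have a2 := mul_le_mul_of_nonneg_right a1 x0
    have a3 := mul_nonneg (mul_nonneg (kn_nonneg q)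
      (abs_nonneg (wt (pv q.1 q.2.1 q.2.2) - wt q.1))) x0
    have a4 := mul_nonneg (mul_nonneg (kf_nonneg q) (wt_pos' q.2.1).le) x0
    simp only [Pi.add_apply, PL]
    linarith
  rw [integral_add' (j2.add j3) j4, integral_add' j2 j3, integral_add' j1 i4] at h5
  have h6 := mul_le_mul_of_nonneg_right (le_abs_self C1) n3
  rw [e3] at h1
  have e4 : ∫ q, kc ε q * ψ q.1 * inc (-N) F q ∂mu3 =
      ∫ q, kc ε q * ψ q.1 * inc (fun v => -N v) F q ∂mu3 := rfl
  linarith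

end Pool.Agent.BoltzM.L1
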