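import Pool.Agent.BoltzM.L1.Cell
import Pool.Agent.BoltzM.L1.PosV
import Pool.Agent.BoltzM.L1.MomV
import Pool.Agent.BoltzM.Uq.Fin
import Pool.Agent.BoltzM.Uq.Lim
import Pool.Agent.BoltzM.Spec.Bg

/-! Sign, decay of all orders and uniqueness. -/

set_option autoImplicit false

open MeasureTheory Set Filter Topology

noncomputable section

namespace Pool.Agent.BoltzM.L1

open Coll Uq Stmt

variable [Dim]

variable {T : ℝ} {f : ℝ → E → E → ℝ}

lemma meas_sol (h : Sol (Bk dd) T f) {t : ℝ} (ht : t ∈ Ico 0 T) :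
    Measurable fun q : E × E => f t q.1 q.2 := by
  have := ((cont_cl h ht).comp (by fun_prop : Continuous fun q : E × E => (t, q))).measurable
  simpa only [Function.comp_def, cl_eq (right_mem_Icc.2 ht.1)] using this

lemma gron_sol (h : Sol (Bk dd) T f) {t0 : ℝ} (h0 : t0 ∈ Ico 0 T) {G g : ℝ → ℝ}
    (hG : Continuous G) (hg : Measurable g) (hc : Chain G g) {W m : E → ℝ} {C : ℝ} (hC : 0 ≤ C)
    (hW : Measurable W) (hm : Integrable m)
    (b0 : ∀ t ∈ Icc 0 t0, ∀ x v, 0 ≤ G (f t x v) * W v)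
    (b1 : ∀ t ∈ Icc 0 t0, ∀ x v, G (f t x v) * W v ≤ m v)
    (b2 : ∀ t ∈ Icc 0 t0, ∀ x v, |g (f t x v) * W v * QO (f t x) v| ≤ m v)
    (hv : ∀ t ∈ Icc 0 t0, ∀ x,
      ∫ v, g (f t x v) * W v * QO (f t x) v ≤ C * ∫ v, G (f t x v) * W v) :
    ∀ t ∈ Icc 0 t0, ∫ q, G (f t q.1 q.2) * W q.2 ∂nu ≤
      (∫ q, G (f 0 q.1 q.2) * W q.2 ∂nu) * Real.exp (C * t) := by
  intro t ht
  have s1 : Icc 0 t0 ⊆ Ico 0 T := Icc_subset_Ico_right h0.2
  have eQ : ∀ s ∈ Icc 0 t0, ∀ x v, Q (Bk dd) (f s x) v = QO (f s x) v := fun s hs x v =>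
    (sig _ v (contDiff_v h (s1 hs) x).continuous.measurable (h.integrable s (s1 hs) x v)).2
  have key := gron hG hg hc (h := fun s x v => f (cl t0 s) x v)
    (r := fun s x v => Q (Bk dd) (f (cl t0 s) x) v) (t0 := t0) hC hW hm (cont_cl h h0)
    (contQ_cl h h0) (fun s n x => per_cl h h0 s n x) (fun s n x => by simp only [per_cl h h0])
    (fun x v s hs => by
      have a1 := (hasChar h (s1 hs) x v v).mono s1
      rw [← Q_eq h (s1 hs)] at a1
      simp only [cl_eq hs]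
      exact a1.congr (fun τ hτ => by simp only [cl_eq hτ]) (by simp only [cl_eq hs]))
    (fun s x v => b0 _ (cl_mem h0.1 s) x v) (fun s _ x v => b1 _ (cl_mem h0.1 s) x v)
    (fun s hs x v => by simp only [cl_eq hs, eQ s hs]; exact b2 s hs x v)
    (fun s hs x => by simp only [cl_eq hs, eQ s hs]; exact hv s hs x) t ht
  simpa only [cl_eq ht, cl_eq (left_mem_Icc.2 h0.1)] using key

lemma wt_mul_le {K : ℝ} {F : E → ℝ} (h : Dec (dd + 31) K F) (v : E) :
    wt v * |F v| ≤ K * ((1 + ‖v‖) ^ (dd + 1))⁻¹ :=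
  (mul_le_mul_of_nonneg_right (wt_le_pow v) (abs_nonneg _)).trans (Dec.pow_mul_le (m := 30) h v)

/-- the two majorants -/
lemma majorant {K c : ℝ} {F ψ : E → ℝ} (H : Nice pW K F) (hψ : ∀ v, |ψ v| ≤ c * wt v) (v : E) :
    |ψ v| * |F v| ≤ c * (K + 2 ^ (pW + 1) * K * K * cW) * ((1 + ‖v‖) ^ (dd + 1))⁻¹ ∧
      |ψ v| * |QO F v| ≤ c * (K + 2 ^ (pW + 1) * K * K * cW) * ((1 + ‖v‖) ^ (dd + 1))⁻¹ := by
  have hc : 0 ≤ c := nonneg_of_mul_nonneg_left ((abs_nonneg _).trans (hψ 0)) (wt_pos' 0)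
  have h1 := mul_le_mul_of_nonneg_left (wt_mul_le (Nice.dec H (p := dd + 31) (by omega)) v) hc
  have h2 := mul_le_mul_of_nonneg_left (wt_mul_le (dec_QO H) v) hc
  have h3 := mul_le_mul_of_nonneg_right (hψ v) (abs_nonneg (F v))
  have h4 := mul_le_mul_of_nonneg_right (hψ v) (abs_nonneg (QO F v))
  have h5 := mul_nonneg (mul_nonneg hc (wt_pos' v).le) (abs_nonneg (F v))
  have h6 := mul_nonneg (mul_nonneg hc (wt_pos' v).le) (abs_nonneg (QO F v))
  constructor <;> linarith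

theorem pos : ∃ p : ℕ, ∀ (T : ℝ) (f : ℝ → E → E → ℝ), PreSol p T f → (∀ x v, 0 ≤ f 0 x v) →
    ∀ t ∈ Ico 0 T, ∀ x v, 0 ≤ f t x v := by
  obtain ⟨p, hp, hV⟩ := posV
  obtain ⟨c, hc, hP⟩ := point
  refine ⟨p, fun T f h h0 t ht x v => ?_⟩
  have hs : Sol (Bk dd) T f := ⟨h.c1, h.periodic, h.integrable, h.eqn⟩
  obtain ⟨K, hK⟩ := h.nice t ht.2
  obtain ⟨C, hC, hV⟩ := hV K
  have tt := right_mem_Icc.2 ht.1
  have bw : ∀ w : E, |wt w| ≤ 1 * wt w := fun w => by rw [one_mul, abs_of_pos (wt_pos' w)]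
  have b1 : ∀ s ∈ Icc 0 t, ∀ y w, max (-f s y w) 0 * wt w ≤
      1 * (K + 2 ^ (pW + 1) * K * K * cW) * ((1 + ‖w‖) ^ (dd + 1))⁻¹ := fun s hs y w => by
    refine le_trans ?_ (majorant (((hK s hs).1 y).mono hp) bw w).1
    rw [abs_of_pos (wt_pos' w), mul_comm]
    exact mul_le_mul_of_nonneg_left (max_le (neg_le_abs _) (abs_nonneg _)) (wt_pos' w).le
  have im := (integrable_wt _ (Nat.lt_succ_self dd)).const_mul
    (1 * (K + 2 ^ (pW + 1) * K * K * cW))
  have key := gron_sol hs ht (by fun_prop) (by fun_prop) chain_neg hC measurable_wt im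
    (fun s _ y w => mul_nonneg (le_max_right _ _) (wt_pos' w).le) b1
    (fun s hs y w => by
      refine le_trans ?_ (majorant (((hK s hs).1 y).mono hp) bw w).2
      obtain ⟨a1, a2, -⟩ := sg_half (f s y w)
      rw [mul_assoc, abs_mul, abs_mul]
      exact mul_le_of_le_one_left (by positivity) (abs_le.2 ⟨a1, by linarith⟩))
    (fun s hs y => hV _ ((hK s hs).1 y)) t tt
  have e0 : ∀ y w, max (-f 0 y w) 0 = 0 := fun y w => max_eq_right (by linarith [h0 y w])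
  simp only [e0, zero_mul, integral_zero] at key
  have H := fun y => ((hK t tt).1 y).neg.posPart
  have K0 := (H x).nonneg
  have h1 := hP (fun y w => max (-f t y w) 0) wt _ (K + 1) 1 x v (by linarith) zero_le_one
    ((meas_sol hs ht).neg.max measurable_const) measurable_wt im (fun _ _ => le_max_right _ _)
    (fun w => (wt_pos' w).le) (b1 t tt) (fun n y => by rw [h.periodic t ht])
    ((le_abs_self _).trans (((H x).abs_le v).trans (by linarith)))
    (fun y w => by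
      refine (abs_max_sub_max_le_abs _ _ _).trans ?_
      rw [neg_sub_neg, abs_sub_comm]
      exact ((hK t tt).2 y x w).trans (mul_le_mul_of_nonneg_right (by linarith) (norm_nonneg _)))
    (fun w hw => by
      have := (H x).lip v (w - v) hw
      rw [add_sub_cancel] at this
      exact this.trans (mul_le_mul_of_nonneg_right (by linarith) (norm_nonneg _)))
    (fun w _ => one_le_wt' w)
  have h2 := h1.trans (mul_nonpos_of_nonneg_of_nonpos (by positivity) key)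
  rw [mul_one] at h2
  by_contra hneg
  have h3 : 0 < max (-f t x v) 0 := lt_max_of_lt_left (by linarith [not_le.1 hneg])
  exact absurd h2 (not_le.2 (mul_pos hc (pow_pos h3 _)))

omit [Dim] in
lemma root_le {A a X : ℝ} {D m : ℕ} (hD : D ≠ 0)
    (h : (A * a ^ m) ^ D ≤ X) : A * a ^ m ≤ max 1 X := by
  rcases le_total (A * a ^ m) 1 with h1 | h1
  · exact le_max_of_le_left h1
  · exact le_max_of_le_right ((le_self_pow₀ h1 hD).trans h)

theorem mom {p : ℕ} (hp : pW ≤ p) (h : PreSol p T f) (h0 : Admissible (f 0))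
    (f0 : ∀ t ∈ Ico 0 T, ∀ x v, 0 ≤ f t x v) : ∀ T' < T, ∀ q > (0 : ℝ), ∃ C, ∀ t ∈ Icc 0 T', ∀ x v,
      f t x v ≤ C * √(1 + ‖v‖ ^ 2) ^ (-q) := by
  intro T' hT' q hq
  rcases lt_or_ge T' 0 with h1 | h1
  · exact ⟨0, fun t ht => absurd (ht.1.trans ht.2) (not_le.2 h1)⟩
  have ht0 : T' ∈ Ico 0 T := ⟨h1, hT'⟩
  have s1 : Icc 0 T' ⊆ Ico 0 T := Icc_subset_Ico_right hT'
  have hs : Sol (Bk dd) T f := ⟨h.c1, h.periodic, h.integrable, h.eqn⟩
  obtain ⟨c, hc, hP⟩ := point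
  obtain ⟨K, hK⟩ := h.nice T' hT'
  obtain ⟨m, hm⟩ := exists_nat_ge q
  obtain ⟨n, hn⟩ : ∃ n : ℕ, n = (2 * dd + 1) * m := ⟨_, rfl⟩
  obtain ⟨C, hC, hV⟩ := momV n K
  obtain ⟨C0, hC0⟩ := h0.decay ((2 * (n + 1) + 2 * (dd + 1) : ℕ) : ℝ) (by positivity)
  obtain ⟨Y, hY⟩ : ∃ Y : ℝ, Y = ∫ z : E × E,
    |C0| * 2 ^ (dd + 1) * ((1 + ‖z.2‖) ^ (dd + 1))⁻¹ ∂nu := ⟨_, rfl⟩
  refine ⟨max 1 ((K + 1) ^ (2 * dd) * (Y * Real.exp (C * T')) * 4 ^ (n + 1) / c),
    fun t ht x v => ?_⟩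
  obtain ⟨R, hR⟩ : ∃ R : ℝ, R = br v := ⟨_, rfl⟩
  have R1 : 1 ≤ R := hR ▸ one_le_br v
  have R0 : 0 ≤ R := by linarith
  have H := fun s hs y => ((hK s hs).1 y).mono hp
  have K0 := (H t ht x).nonneg
  have b1 : ∀ s ∈ Icc 0 T', ∀ y w, f s y w * Wm R n (br w) ≤
      R ^ n * (K + 2 ^ (pW + 1) * K * K * cW) * ((1 + ‖w‖) ^ (dd + 1))⁻¹ := fun s hs y w => by
    refine le_trans ?_ (majorant (H s hs y) (abs_Wm_br_le R0 n) w).1
    rw [← abs_mul, mul_comm]
    exact le_abs_self _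
  have im := (integrable_wt _ (Nat.lt_succ_self dd)).const_mul
    (R ^ n * (K + 2 ^ (pW + 1) * K * K * cW))
  have mW : Measurable fun w : E => Wm R n (br w) := by fun_prop
  have key := gron_sol hs ht0 continuous_id' measurable_const chain_id hC mW im
    (fun s hs y w => mul_nonneg (f0 s (s1 hs) y w) (Wm_br_nonneg R0 n w)) b1
    (fun s hs y w => by
      rw [one_mul, abs_mul]
      exact (majorant (H s hs y) (abs_Wm_br_le R0 n) w).2)
    (fun s hs y => by simpa only [one_mul] using hV _ R (H s hs y) (f0 s (s1 hs) y) R0) t ht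
  have y0 : ∫ z : E × E, f 0 z.1 z.2 * Wm R n (br z.2) ∂nu ≤ Y := by
    rw [hY]
    refine integral_mono_of_nonneg
      (ae_of_all _ fun z => mul_nonneg (h0.nonneg _ _) (Wm_br_nonneg R0 n _))
      (integrable_snd ((integrable_wt _ (Nat.lt_succ_self dd)).const_mul _))
      (ae_of_all _ fun z => ?_)
    have a0 := br_pos z.2
    have a1 := (hC0 z.1 z.2).trans (mul_le_mul_of_nonneg_right (le_abs_self C0) (by positivity))
    have a2 : √(1 + ‖z.2‖ ^ 2) ^ (-((2 * (n + 1) + 2 * (dd + 1) : ℕ) : ℝ)) =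
        (br z.2 ^ (n + 1) * br z.2 ^ (dd + 1))⁻¹ := by
      rw [Real.rpow_neg (Real.sqrt_nonneg _), Real.rpow_natCast, pow_add, pow_mul, pow_mul,
        Real.sq_sqrt (by positivity), br]
    have a3 : Wm R n (br z.2) ≤ br z.2 ^ (n + 1) := by
      rw [pow_succ', Wm, mm]
      exact mul_le_mul_of_nonneg_left
        (pow_le_pow_left₀ (le_min a0.le R0) (min_le_left _ _) _) a0.le
    have a4 : (1 + ‖z.2‖) ^ (dd + 1) ≤ 2 ^ (dd + 1) * br z.2 ^ (dd + 1) := by
      rw [← mul_pow]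
      refine pow_le_pow_left₀ (by positivity) ?_ _
      unfold br
      nlinarith [sq_nonneg (‖z.2‖ - 1), sq_nonneg ‖z.2‖]
    rw [a2] at a1
    refine (mul_le_mul a1 a3 (Wm_br_nonneg R0 n _) (by positivity)).trans ?_
    simp only
    rw [← div_eq_mul_inv (|C0| * _), le_div_iff₀ (wt_pos _ _)]
    refine (mul_le_mul_of_nonneg_left a4 (by positivity)).trans (le_of_eq ?_)
    field_simp
  have Y0 : 0 ≤ Y := le_trans (integral_nonneg fun z =>
    mul_nonneg (h0.nonneg _ _) (Wm_br_nonneg R0 n _)) y0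
  have key2 := key.trans (mul_le_mul y0 (Real.exp_le_exp.2 (mul_le_mul_of_nonneg_left ht.2 hC))
    (Real.exp_pos _).le Y0)
  have h2 := hP (f t) (fun w => Wm R n (br w)) _ (K + 1) ((R / 4) ^ (n + 1)) x v (by linarith)
    (by positivity) (meas_sol hs (s1 ht)) mW im (f0 t (s1 ht)) (Wm_br_nonneg R0 n) (b1 t ht)
    (h.periodic t (s1 ht)) ((le_abs_self _).trans (((H t ht x).abs_le v).trans (by linarith)))
    (fun y w => ((hK t ht).2 y x w).trans
      (mul_le_mul_of_nonneg_right (by linarith) (norm_nonneg _)))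
    (fun w hw => by
      have := (H t ht x).lip v (w - v) hw
      rw [add_sub_cancel] at this
      exact this.trans (mul_le_mul_of_nonneg_right (by linarith) (norm_nonneg _)))
    (fun w hw => by
      have a1 : R / 4 ≤ br w := by
        have a2 : ‖v‖ ≤ ‖w‖ + 1 := by linarith [norm_sub_norm_le v w, norm_sub_rev v w]
        have a3 : ‖v‖ ^ 2 ≤ (‖w‖ + 1) ^ 2 := by gcongr
        rw [hR, br, br]
        nlinarith [sq_nonneg (‖w‖ - 1), sq_nonneg ‖w‖]
      rw [pow_succ', Wm, mm]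
      exact mul_le_mul a1 (pow_le_pow_left₀ (by positivity) (le_min a1 (by linarith)) _)
        (by positivity) (br_pos w).le)
  have A0 := f0 t (s1 ht) x v
  have h3 := h2.trans (mul_le_mul_of_nonneg_left key2 (by positivity))
  have h4 : (f t x v * R ^ m) ^ (2 * dd + 1) ≤
      (K + 1) ^ (2 * dd) * (Y * Real.exp (C * T')) * 4 ^ (n + 1) / c := by
    rw [le_div_iff₀ hc]
    refine le_trans ?_ (mul_le_mul_of_nonneg_right h3 (by positivity))
    have a1 : (R ^ m) ^ (2 * dd + 1) ≤ R ^ (n + 1) := by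
      rw [← pow_mul, mul_comm m, ← hn]
      exact pow_le_pow_right₀ R1 (Nat.le_succ n)
    rw [mul_pow]
    calc _ ≤ f t x v ^ (2 * dd + 1) * R ^ (n + 1) * c := by gcongr
      _ = _ := by rw [div_pow]; field_simp
  have h5 := root_le (Nat.succ_ne_zero _) h4
  have h6 : √(1 + ‖v‖ ^ 2) ^ q ≤ R ^ m := by
    have a1 : 1 ≤ √(1 + ‖v‖ ^ 2) := Real.one_le_sqrt.2 (by nlinarith [sq_nonneg ‖v‖])
    refine (Real.rpow_le_rpow_of_exponent_le a1 hm).trans ?_
    rw [Real.rpow_natCast]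
    refine pow_le_pow_left₀ (by positivity) ?_ _
    rw [hR]
    exact Real.sqrt_le_iff.2 ⟨(br_pos v).le, le_self_pow₀ (one_le_br v) two_ne_zero⟩
  rw [Real.rpow_neg (Real.sqrt_nonneg _), ← div_eq_mul_inv, le_div_iff₀ (by positivity)]
  exact (mul_le_mul_of_nonneg_left h6 A0).trans h5

theorem l1 : L1Stmt := by
  obtain ⟨p1, h1⟩ := pos
  obtain ⟨p2, h2⟩ := uniq_of (vel_of (mainU pov) cross lim)
  refine ⟨pW + p1 + p2, fun T f h h0 => ?_⟩
  have hm : ∀ p, p ≤ pW + p1 + p2 → PreSol p T f := fun p hp =>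
    ⟨h.c1, h.periodic, h.integrable, h.eqn, fun T' hT' => by
      obtain ⟨K, hK⟩ := h.nice T' hT'
      exact ⟨K, fun t ht => ⟨fun x => ((hK t ht).1 x).mono hp, (hK t ht).2⟩⟩⟩
  have f0 := h1 T f (hm _ (by omega)) h0.nonneg
  have hc : ClassicalSol (Bk dd) T f :=
    ⟨h.c1, h.periodic, f0, mom (by omega) h h0 f0, h.integrable, h.eqn⟩
  refine ⟨hc, h2 T f hc fun T' hT' => ?_⟩
  obtain ⟨K, hK⟩ := (hm p2 (by omega)).nice T' hT'
  exact ⟨K, fun t ht => (hK t ht).1⟩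

end Pool.Agent.BoltzM.L1
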