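import Pool.Agent.BoltzM.Coll.Defs
import Pool.Agent.BoltzM.Stmt

/-! The interface of the `L^1` block: positivity, all moments and uniqueness. -/

set_option autoImplicit false

open Set

noncomputable section

namespace Pool.Agent.BoltzM.L1

open Coll Stmt

variable [Dim]

/-- what the construction delivers in physical variables (no sign, one decay order) -/
structure Pre (p : ℕ) (T : ℝ) (f : ℝ → E → E → ℝ) : Prop where
  c1 : ContDiffOn ℝ 1 (fun q : ℝ × E × E => f q.1 q.2.1 q.2.2) (Ico 0 T ×ˢ univ)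
  periodic : ∀ t ∈ Ico 0 T, ∀ n x, f t (x + lat n) = f t x
  eqn : ∀ t ∈ Ico 0 T, ∀ x v, derivWithin (fun τ => f τ x v) (Ico 0 T) t
    + fderiv ℝ (fun y => f t y v) x v = Q (Bk dd) (f t x) v
  nice : ∀ T' < T, ∃ K : ℝ, ∀ t ∈ Icc 0 T', (∀ x, Nice p K (f t x)) ∧
    ∀ x y v, |f t x v - f t y v| ≤ K * ‖x - y‖
  nonneg0 : ∀ x v, 0 ≤ f 0 x v
  decay0 : ∀ q > (0 : ℝ), ∃ C, ∀ x v, f 0 x v ≤ C * √(1 + ‖v‖ ^ 2) ^ (-q)

/-- the decay order that the block needs -/
def pL : ℕ := 2 * dd + 200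

/-- the two forms of the operator agree on functions with one decay order -/
def QStmt : Prop :=
  ∀ (K : ℝ) (f : E → ℝ), Nice pL K f → ∀ v,
    MeasureTheory.Integrable (collInt (Bk dd) f v) (collMeas dd) ∧
      Q (Bk dd) f v = Tri (fun _ => 1) f f v

/-- positivity, all moments, uniqueness -/
def L1Stmt : Prop :=
  ∀ (T : ℝ) (f : ℝ → E → E → ℝ), Pre pL T f → ClassicalSol (Bk dd) T f ∧ Unique (Bk dd) T f

end Pool.Agent.BoltzM.L1
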