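import Pool.Agent.BoltzM.Uq.Main

/-! The weak form of the collision operator for Lipschitz functions with one decay order. -/

set_option autoImplicit false

open MeasureTheory Set Filter Topology
open scoped ENNReal

noncomputable section

namespace Pool.Agent.BoltzM.L1

open Coll C3 Uq

variable [Dim]

/-- the decay profile -/
def dw (w : E) : ℝ := ((1 + ‖w‖) ^ (dd + 60))⁻¹

lemma dw_pos (w : E) : 0 < dw w := inv_pos.2 (wt_pos _ _)

@[fun_prop] lemma measurable_dw : Measurable dw := by unfold dw; fun_prop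

lemma dec_dw : Dec (dd + 60) 1 dw := fun v => by
  rw [abs_of_pos (dw_pos v), dw, mul_inv_cancel₀ (wt_pos _ _).ne']

/-- the decay order used here -/
def pW : ℕ := 2 * (dd + 60)

variable {K : ℝ} {F ψ : E → ℝ}

lemma Nice.dec (H : Nice pW K F) {p : ℕ} (hp : p ≤ 2 * dd + 120) : Dec p K F :=
  Dec.mono (p := pW) H.1 (by unfold pW; omega)

lemma inc_le (H : Nice pW K F) (q : E × E × S2) :
    |inc F F q| ≤ 2 ^ (pW + 1) * K * K * min 1 |rho q| * (dw q.1 * dw q.2.1) := by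
  obtain ⟨v, w, o⟩ := q
  have h1 := inc_bound H H v w o
  have h2 := inc_bound H H w v o
  rw [pw_swap v w, pv_swap v w, ← neg_sub v w, inner_neg_left, abs_neg, mul_comm (F (pv v w o)),
    mul_comm (F v)] at h2
  simp only [inc, rho, dw]
  rw [← mul_inv, ← div_eq_mul_inv, le_div_iff₀' (mul_pos (wt_pos _ _) (wt_pos _ _))]
  have key : ∀ x y : E, ‖x‖ ≤ ‖y‖ →
      (1 + ‖x‖) ^ (dd + 60) * (1 + ‖y‖) ^ (dd + 60) ≤ (1 + ‖y‖) ^ pW := fun x y h => by
    rw [pW, two_mul, pow_add (1 + ‖y‖) (dd + 60)]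
    gcongr
  rcases le_total ‖v‖ ‖w‖ with h | h
  · exact (mul_le_mul_of_nonneg_right (key v w h) (abs_nonneg _)).trans h2
  · rw [mul_comm ((1 + ‖v‖) ^ (dd + 60))]
    exact (mul_le_mul_of_nonneg_right (key w v h) (abs_nonneg _)).trans h1

lemma ker_inc_le (H : Nice pW K F) (q : E × E × S2) :
    |ker3 q * inc F F q| ≤ 2 ^ (pW + 1) * K * K * (kx q * (dw q.1 * dw q.2.1)) := by
  rw [abs_mul, abs_of_nonneg (ker3_nonneg q)]
  refine (mul_le_mul_of_nonneg_left (inc_le H q) (ker3_nonneg q)).trans (le_of_eq ?_)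
  rw [kx]; ring

lemma integrable_weak (H : Nice pW K F) (mψ : Measurable ψ) {c : ℝ}
    (hψ : ∀ v, |ψ v| ≤ c * wt v) :
    Integrable (fun q : E × E × S2 => ker3 q * ψ q.1 * inc F F q) mu3 := by
  have mF := H.measurable
  have hK := H.nonneg
  refine integrable_of_le (c := c * (2 ^ (pW + 1) * K * K)) measurable_dw measurable_dw dec_dw
    dec_dw (by fun_prop) fun q => ?_
  have hc : 0 ≤ c := nonneg_of_mul_nonneg_left ((abs_nonneg _).trans (hψ 0)) (wt_pos' 0)
  have h1 := mul_le_mul (hψ q.1) (ker_inc_le H q) (abs_nonneg _)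
    (mul_nonneg hc (wt_pos' _).le)
  have h2 : 0 ≤ c * wt q.1 * (2 ^ (pW + 1) * K * K * (kx q * (dw q.1 * dw q.2.1))) :=
    (mul_nonneg (abs_nonneg _) (abs_nonneg _)).trans h1
  rw [← abs_mul] at h1
  rw [abs_of_pos (dw_pos _), abs_of_pos (dw_pos _), mul_comm (ker3 q), mul_assoc]
  refine h1.trans ((le_mul_of_one_le_left h2 (one_le_wt' q.2.1)).trans (le_of_eq ?_))
  ring

lemma weak (H : Nice pW K F) (mψ : Measurable ψ) {c : ℝ} (hψ : ∀ v, |ψ v| ≤ c * wt v) :
    ∫ v, ψ v * QO F v = ∫ q, ker3 q * ψ q.1 * inc F F q ∂mu3 := by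
  rw [mu3, integral_prod _ (integrable_weak H mψ hψ)]
  refine integral_congr_ae (ae_of_all _ fun v => ?_)
  simp only [QO, cO]
  rw [← integral_const_mul]
  exact integral_congr_ae (ae_of_all _ fun q => by simp only; ring)

lemma dec_QO (H : Nice pW K F) : Dec (dd + 31) (2 ^ (pW + 1) * K * K * cW) (QO F) := by
  intro v
  have hK := H.nonneg
  have hW := cW_pos
  have hA : 0 ≤ 2 ^ (pW + 1) * K * K * dw v :=
    mul_nonneg (mul_nonneg (mul_nonneg (pow_nonneg zero_le_two _) hK) hK) (dw_pos v).le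
  have h1 := lintegral_ker_min_le (Ka := 1) measurable_dw (dec_dw.mono (by omega)) v
  have h2 : |QO F v| ≤ 2 ^ (pW + 1) * K * K * dw v * (cW * 1 * (1 + ‖v‖) ^ (2 : ℝ)) := by
    rw [← ENNReal.ofReal_le_ofReal_iff (mul_nonneg hA (by positivity)), ← Real.enorm_eq_ofReal_abs,
      ENNReal.ofReal_mul hA]
    refine (enorm_integral_le_lintegral_enorm _).trans (le_trans ?_ (mul_le_mul_right h1 _))
    rw [← lintegral_const_mul' _ _ ENNReal.ofReal_ne_top]
    refine lintegral_mono fun q => ?_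
    rw [Real.enorm_eq_ofReal_abs, ← ENNReal.ofReal_mul hA]
    refine ENNReal.ofReal_le_ofReal ((ker_inc_le H (v, q)).trans (le_of_eq ?_))
    rw [abs_of_pos (dw_pos _)]
    simp only [kx, ker3, rho]
    ring
  refine (mul_le_mul_of_nonneg_left h2 (wt_pos _ _).le).trans ?_
  have h3 : (1 + ‖v‖) ^ (dd + 31) * (dw v * (1 + ‖v‖) ^ (2 : ℝ)) ≤ 1 := by
    rw [Real.rpow_two, dw, mul_comm _ (_ ^ 2), ← mul_assoc, ← pow_add, ← div_eq_mul_inv,
      div_le_one (wt_pos _ _)]
    exact pow_le_pow_right₀ (by linarith [norm_nonneg v]) (by omega)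
  have h4 : 0 ≤ 2 ^ (pW + 1) * K * K * cW :=
    mul_nonneg (mul_nonneg (mul_nonneg (pow_nonneg zero_le_two _) hK) hK) hW.le
  calc _ = 2 ^ (pW + 1) * K * K * cW * ((1 + ‖v‖) ^ (dd + 31) * (dw v * (1 + ‖v‖) ^ (2 : ℝ))) := by
        ring
    _ ≤ _ := mul_le_of_le_one_right h4 h3

/-- removal of the truncation -/
lemma tendsto_kc (H : Nice pW K F) (mψ : Measurable ψ) (hψ : ∀ v, |ψ v| ≤ wt v) :
    Tendsto (fun n : ℕ => ∫ q, (kc (1 / ((n : ℝ) + 1)) q + kf q) * ψ q.1 * inc F F q ∂mu3) atTop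
      (𝓝 (∫ v, ψ v * QO F v)) := by
  have mF := H.measurable
  have hψ' : ∀ v, |ψ v| ≤ 1 * wt v := fun v => by rw [one_mul]; exact hψ v
  have h1 : ∀ n : ℕ, 1 / ((n : ℝ) + 1) ≤ 1 := fun n => by
    rw [div_le_one (by positivity)]; linarith [Nat.cast_nonneg (α := ℝ) n]
  rw [weak H mψ hψ']
  refine tendsto_integral_of_dominated_convergence _
    (fun n => (by fun_prop : Measurable _).aestronglyMeasurable)
    (integrable_weak H mψ hψ').norm (fun n => ae_of_all _ fun q => ?_) (ae_of_all _ fun q => ?_)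
  · rw [← ke_eq (h1 n), ke]
    split_ifs
    · exact le_rfl
    · simp only [zero_mul, norm_zero, norm_nonneg]
  · rcases eq_or_ne (rho q) 0 with h | h
    · have h2 : ker3 q = 0 := by
        have h' := h
        simp only [rho] at h'
        simp only [ker3, Coll.ker, h', abs_zero]
        rw [Real.zero_rpow (by norm_num), mul_zero]
      refine tendsto_const_nhds.congr fun n => ?_
      rw [← ke_eq (h1 n), ke, h2, ite_self]
    · refine tendsto_const_nhds.congr' ?_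
      filter_upwards [tendsto_one_div_add_atTop_nhds_zero_nat.eventually_le_const (abs_pos.2 h)]
        with n hn
      rw [← ke_eq (h1 n), ke, if_pos hn]

/-- the weak form with a test function whose increments are small -/
lemma weak_sym (H : Nice pW K F) (mψ : Measurable ψ) {c : ℝ} (hψ : ∀ v, |ψ v| ≤ c * wt v)
    (i1 : Integrable (fun q : E × E × S2 =>
      ker3 q * (ψ (pv q.1 q.2.1 q.2.2) - ψ q.1) * (F q.2.1 * F q.1)) mu3) :
    2 * ∫ v, ψ v * QO F v = ∫ q, ker3 q * (ψ (pv q.1 q.2.1 q.2.2) + ψ (pw q.1 q.2.1 q.2.2) -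
      ψ q.1 - ψ q.2.1) * (F q.2.1 * F q.1) ∂mu3 := by
  have i0 := integrable_weak H mψ hψ
  have h1 := integral_coll fun q : E × E × S2 => ker3 q * ψ q.1 * inc F F q
  have h2 := integral_coll fun q : E × E × S2 =>
    ker3 q * (ψ (pv q.1 q.2.1 q.2.2) - ψ q.1) * (F q.2.1 * F q.1)
  have h3 := integral_swp fun q : E × E × S2 =>
    ker3 q * (ψ (pv q.1 q.2.1 q.2.2) - ψ q.1) * (F q.2.1 * F q.1)
  have h4 := integral_add i0 (Integrable.coll i0)
  have h5 := integral_add i1 (Integrable.coll i1)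
  have h6 := integral_add i1 (Integrable.swp i1)
  have e1 : ∫ q, ker3 q * ψ q.1 * inc F F q + ker3 (coll q) * ψ (coll q).1 * inc F F (coll q) ∂mu3 =
      ∫ q, ker3 q * (ψ (pv q.1 q.2.1 q.2.2) - ψ q.1) * (F q.2.1 * F q.1) + ker3 (coll q) *
        (ψ (pv (coll q).1 (coll q).2.1 (coll q).2.2) - ψ (coll q).1) *
          (F (coll q).2.1 * F (coll q).1) ∂mu3 := by
    refine integral_congr_ae (ae_of_all _ fun q => ?_)
    simp only [ker3_coll]
    simp only [inc, coll, pv_pv, pw_pw]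
    ring
  have e2 : ∫ q, ker3 q * (ψ (pv q.1 q.2.1 q.2.2) + ψ (pw q.1 q.2.1 q.2.2) -
      ψ q.1 - ψ q.2.1) * (F q.2.1 * F q.1) ∂mu3 =
      ∫ q, ker3 q * (ψ (pv q.1 q.2.1 q.2.2) - ψ q.1) * (F q.2.1 * F q.1) + ker3 (swp q) *
        (ψ (pv (swp q).1 (swp q).2.1 (swp q).2.2) - ψ (swp q).1) *
          (F (swp q).2.1 * F (swp q).1) ∂mu3 := by
    refine integral_congr_ae (ae_of_all _ fun q => ?_)
    simp only [ker3_swp]
    simp only [swp, pv_swap q.1 q.2.1]
    ring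
  rw [weak H mψ hψ, e2, h6, h3]
  rw [e1, h5, h1, h2] at h4
  linarith

end Pool.Agent.BoltzM.L1
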